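import Mathlib

/-!
The bad part of a family of elements of a factorial ring (helper537, job KC1 of helper192).
-/

set_option autoImplicit false

namespace Pool.Agent.Y537.KC

open UniqueFactorizationMonoid

/-- a property of elements which is multiplicative and inherited by divisors -/
structure Clo {A ι : Type*} [CommRing A] (x : ι → A) (W : A → Prop) : Prop where
  one : W 1
  mul : ∀ a b, W a → W b → W (a * b)
  dvd : ∀ a b, W b → b ≠ 0 → a ∣ b → W a
  var : ∀ i, W (x i)

/-- nonnegative multiplicative functions -/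
structure Val {A : Type*} [CommRing A] (v : A → WithTop ℤ) : Prop where
  one : v 1 = 0
  mul : ∀ a b, v (a * b) = v a + v b
  nonneg : ∀ a, 0 ≤ v a

section

variable {A ι : Type*} [CommRing A]

lemma Clo.pow {x : ι → A} {W : A → Prop} (h : Clo x W) {a : A} (ha : W a) (n : ℕ) : W (a ^ n) := by
  induction n with
  | zero => rw [pow_zero]; exact h.one
  | succ n ih => rw [pow_succ]; exact h.mul _ _ ih ha

lemma Clo.prod {x : ι → A} {W : A → Prop} (h : Clo x W) {κ : Type*} (s : Finset κ) (f : κ → A)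
    (hf : ∀ i ∈ s, W (f i)) : W (∏ i ∈ s, f i) :=
  Finset.prod_induction f W h.mul h.one hf

lemma Val.dvd {v : A → WithTop ℤ} (h : Val v) {a b : A} (hab : a ∣ b) (hb : v b = 0) :
    v a = 0 := by
  obtain ⟨c, rfl⟩ := hab
  rw [h.mul] at hb
  have h1 := h.nonneg a
  have h2 := h.nonneg c
  have h3 : v a ≠ ⊤ := fun h => by rw [h, top_add] at hb; exact WithTop.top_ne_zero hb
  have h4 : v c ≠ ⊤ := fun h => by rw [h, add_top] at hb; exact WithTop.top_ne_zero hb
  lift v a to ℤ using h3 with α
  lift v c to ℤ using h4 with β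
  norm_cast at *
  omega

lemma Val.pow {v : A → WithTop ℤ} (h : Val v) {a : A} {α : ℤ} (ha : v a = (α : WithTop ℤ))
    (n : ℕ) : v (a ^ n) = ((n * α : ℤ) : WithTop ℤ) := by
  induction n with
  | zero => rw [pow_zero, h.one]; simp
  | succ n ih =>
    rw [pow_succ, h.mul, ih, ha, ← WithTop.coe_add]
    congr 1
    push_cast
    ring

lemma Val.ne_top {v : A → WithTop ℤ} (h : Val v) {a b : A} (hab : a ∣ b) (hb : v b ≠ ⊤) :
    v a ≠ ⊤ := by
  obtain ⟨c, rfl⟩ := hab
  rw [h.mul] at hb
  exact fun h => hb (by rw [h, top_add])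

end

/-- The bad part. -/
theorem bad {A ι : Type*} [CommRing A] [IsDomain A] [UniqueFactorizationMonoid A] (x : ι → A)
    (hx : ∀ i, Prime (x i)) {r : ℕ} (F : Fin r → A) (hF : ∀ j, F j ≠ 0) (e : Fin r → ℕ)
    (he : ∀ j, 0 < e j) (G : A) (hG : G ≠ 0) :
    ∃ g : A, (∃ N : ℕ, g ∣ (G * ∏ j, F j) ^ N) ∧ Squarefree g ∧ (∀ i, ¬ (x i ∣ g)) ∧
    (∀ v : A → WithTop ℤ, Val v → (∀ i, v (x i) = 0) → v G = 0 →
      (∀ j, ∃ a : ℤ, v (F j) = ((e j * a : ℤ) : WithTop ℤ)) → v g ≠ 1) ∧
    ∀ W : A → Prop, Clo x W → W g → W G ∧ ∀ j, ∃ H S : A, F j = H * S ^ e j ∧ W H := by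
  classical
  let _ : NormalizationMonoid A := (UniqueFactorizationMonoid.strongNormalizationMonoid
    (α := A)).toNormalizationMonoid
  set PP : A := G * ∏ j, F j with hPP
  have hPP0 : PP ≠ 0 := mul_ne_zero hG (Finset.prod_ne_zero_iff.2 fun j _ => hF j)
  let c : Fin r → A → ℕ := fun j p => (normalizedFactors (F j)).count p
  let Bad : A → Prop := fun p => (∀ i, ¬ Associated p (x i)) ∧ (p ∣ G ∨ ∃ j, ¬ (e j ∣ c j p))
  let S : Finset A := (normalizedFactors PP).toFinset.filter Bad
  have hS : ∀ p, p ∈ S ↔ (Irreducible p ∧ normalize p = p ∧ p ∣ PP) ∧ Bad p := by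
    intro p
    rw [Finset.mem_filter, Multiset.mem_toFinset, mem_normalizedFactors_iff' hPP0]
  have hFd : ∀ j, F j ∣ PP := fun j =>
    (Finset.dvd_prod_of_mem F (Finset.mem_univ j)).trans (Dvd.intro_left _ rfl)
  have hGd : G ∣ PP := Dvd.intro _ rfl
  let g : A := ∏ p ∈ S, p
  have hg0 : g ≠ 0 := Finset.prod_ne_zero_iff.2 fun p hp => ((hS p).1 hp).1.1.ne_zero
  have hpg : ∀ p ∈ S, p ∣ g := fun p hp => Finset.dvd_prod_of_mem (fun p => p) hp
  -- decomposition of an element
  have dec : ∀ f : A, f ≠ 0 → ∃ u : Aˣ, f = u * ∏ p ∈ (normalizedFactors f).toFinset,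
      p ^ (normalizedFactors f).count p := by
    intro f hf
    obtain ⟨u, hu⟩ := prod_normalizedFactors hf
    refine ⟨u, ?_⟩
    rw [← Finset.prod_multiset_count, mul_comm, hu]
  refine ⟨g, ⟨S.card, ?_⟩, ?_, ?_, ?_, ?_⟩
  · -- divisibility
    have h1 : g ∣ ∏ _p ∈ S, PP := Finset.prod_dvd_prod_of_dvd _ _ fun p hp => ((hS p).1 hp).1.2.2
    rwa [Finset.prod_const] at h1
  · -- squarefree
    apply Finset.squarefree_prod_of_pairwise_isCoprime
    · intro p hp q hq hpq
      have h1 := ((hS p).1 hp).1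
      have h2 := ((hS q).1 hq).1
      show IsRelPrime p q
      rw [h1.1.isRelPrime_iff_not_dvd]
      intro h
      exact hpq ((h1.1.associated_of_dvd h2.1 h).eq_of_normalized h1.2.1 h2.2.1)
    · intro p hp
      exact ((hS p).1 hp).1.1.squarefree
  · -- variables
    intro i hi
    obtain ⟨p, hp, hip⟩ := ((hx i).dvd_finset_prod_iff _).1 hi
    have h1 := (hS p).1 hp
    exact h1.2.1 i ((hx i).irreducible.associated_of_dvd h1.1.1 hip).symm
  · -- valuations
    intro v hv hvx hvG hvF hvg
    obtain ⟨p0, hp0, hvp0⟩ : ∃ p ∈ S, v p ≠ 0 := by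
      by_contra hcon
      push Not at hcon
      have h1 : v g = 0 := Finset.prod_induction (fun p => p) (fun a => v a = 0)
        (fun a b ha hb => by rw [hv.mul, ha, hb, add_zero]) hv.one hcon
      rw [h1] at hvg
      exact absurd hvg (by norm_num)
    have h1 : g = p0 * ∏ p ∈ S.erase p0, p := (Finset.mul_prod_erase S (fun p => p) hp0).symm
    have h2 : v p0 = 1 ∧ v (∏ p ∈ S.erase p0, p) = 0 := by
      rw [h1, hv.mul] at hvg
      have h3 := hv.nonneg p0
      have h4 := hv.nonneg (∏ p ∈ S.erase p0, p)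
      have h5 : v p0 ≠ ⊤ := fun h => by rw [h, top_add] at hvg; exact absurd hvg (by decide)
      have h6 : v (∏ p ∈ S.erase p0, p) ≠ ⊤ := fun h => by
        rw [h, add_top] at hvg; exact absurd hvg (by decide)
      lift v p0 to ℤ using h5 with α
      lift v (∏ p ∈ S.erase p0, p) to ℤ using h6 with β
      norm_cast at *
      omega
    have h3 : ∀ p ∈ S, p ≠ p0 → v p = 0 := fun p hp hne =>
      hv.dvd (Finset.dvd_prod_of_mem (fun p => p) (Finset.mem_erase.2 ⟨hne, hp⟩)) h2.2
    have hS0 := (hS p0).1 hp0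
    rcases hS0.2.2 with hd | ⟨j, hj⟩
    · exact hvp0 (hv.dvd hd hvG)
    · obtain ⟨u, hu⟩ := dec (F j) (hF j)
      obtain ⟨a, ha⟩ := hvF j
      set T := (normalizedFactors (F j)).toFinset with hT
      have hFt : v (F j) ≠ ⊤ := by rw [ha]; exact WithTop.coe_ne_top
      have hp0T : p0 ∈ T := by
        rw [hT, Multiset.mem_toFinset]
        by_contra hcon
        apply hj
        show e j ∣ (normalizedFactors (F j)).count p0
        rw [Multiset.count_eq_zero_of_notMem hcon]
        exact dvd_zero _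
      have hu0 : v (u : A) = 0 := hv.dvd u.isUnit.dvd hv.one
      have hQ : ∃ b : ℤ, v (∏ p ∈ T.erase p0, p ^ (normalizedFactors (F j)).count p)
          = ((e j * b : ℤ) : WithTop ℤ) := by
        refine Finset.prod_induction _ (fun a => ∃ b : ℤ, v a = ((e j * b : ℤ) : WithTop ℤ))
          ?_ ⟨0, by rw [hv.one]; simp⟩ ?_
        · rintro a b ⟨α, hα⟩ ⟨β, hβ⟩
          exact ⟨α + β, by rw [hv.mul, hα, hβ, ← WithTop.coe_add, mul_add]⟩
        · intro p hp
          obtain ⟨hne, hpT⟩ := Finset.mem_erase.1 hp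
          rw [hT, Multiset.mem_toFinset, mem_normalizedFactors_iff' (hF j)] at hpT
          have hpF : v p ≠ ⊤ := hv.ne_top hpT.2.2 hFt
          by_cases hbad : Bad p
          · have h4 : v p = 0 := h3 p ((hS p).2 ⟨⟨hpT.1, hpT.2.1, hpT.2.2.trans (hFd j)⟩, hbad⟩)
              hne
            refine ⟨0, ?_⟩
            rw [hv.pow (α := 0) (by rw [h4]; rfl)]
            simp
          · by_cases hvar : ∃ i, Associated p (x i)
            · obtain ⟨i, hi⟩ := hvar
              have h4 : v p = 0 := hv.dvd hi.dvd (hvx i)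
              refine ⟨0, ?_⟩
              rw [hv.pow (α := 0) (by rw [h4]; rfl)]
              simp
            · have h4 : e j ∣ (normalizedFactors (F j)).count p := by
                by_contra hcon
                exact hbad ⟨not_exists.1 hvar, Or.inr ⟨j, hcon⟩⟩
              obtain ⟨k, hk⟩ := h4
              lift v p to ℤ using hpF with α hα
              refine ⟨k * α, ?_⟩
              rw [hv.pow hα.symm, hk]
              congr 1
              push_cast
              ring
      obtain ⟨b, hb⟩ := hQ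
      rw [hu, ← Finset.mul_prod_erase T _ hp0T, hv.mul, hv.mul, hu0, hb, zero_add,
        hv.pow (α := 1) (by rw [h2.1]; rfl), ← WithTop.coe_add] at ha
      have h5 := WithTop.coe_injective ha
      apply hj
      show e j ∣ (normalizedFactors (F j)).count p0
      have h6 : (e j : ℤ) ∣ ((normalizedFactors (F j)).count p0 : ℤ) :=
        ⟨a - b, by linarith⟩
      exact_mod_cast h6
  · -- factorization
    intro W hW hWg
    have hWS : ∀ p ∈ S, W p := fun p hp => hW.dvd p g hWg hg0 (hpg p hp)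
    have hWu : ∀ u : Aˣ, W (u : A) := fun u => hW.dvd _ _ hW.one one_ne_zero u.isUnit.dvd
    have hWv : ∀ p i, Associated p (x i) → W p := fun p i h =>
      hW.dvd _ _ (hW.var i) (hx i).ne_zero h.dvd
    refine ⟨?_, fun j => ?_⟩
    · obtain ⟨u, hu⟩ := dec G hG
      rw [hu]
      refine hW.mul _ _ (hWu u) (hW.prod _ _ fun p hp => hW.pow ?_ _)
      rw [Multiset.mem_toFinset, mem_normalizedFactors_iff' hG] at hp
      by_cases hvar : ∃ i, Associated p (x i)
      · obtain ⟨i, hi⟩ := hvar
        exact hWv p i hi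
      · exact hWS p ((hS p).2 ⟨⟨hp.1, hp.2.1, hp.2.2.trans hGd⟩, not_exists.1 hvar,
          Or.inl hp.2.2⟩)
    · obtain ⟨u, hu⟩ := dec (F j) (hF j)
      set T := (normalizedFactors (F j)).toFinset with hT
      let R : A → Prop := fun p => Bad p ∨ ∃ i, Associated p (x i)
      refine ⟨u * ∏ p ∈ T.filter R, p ^ (normalizedFactors (F j)).count p,
        ∏ p ∈ T.filter (fun p => ¬ R p), p ^ ((normalizedFactors (F j)).count p / e j), ?_, ?_⟩
      · rw [mul_assoc, ← Finset.prod_pow]
        have h1 : ∏ p ∈ T.filter (fun p => ¬ R p),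
            (p ^ ((normalizedFactors (F j)).count p / e j)) ^ e j
            = ∏ p ∈ T.filter (fun p => ¬ R p), p ^ (normalizedFactors (F j)).count p := by
          refine Finset.prod_congr rfl fun p hp => ?_
          rw [← pow_mul, Nat.div_mul_cancel]
          by_contra hcon
          obtain ⟨h2, h3⟩ := Finset.mem_filter.1 hp
          have h4 := not_or.1 h3
          exact h4.1 ⟨not_exists.1 h4.2, Or.inr ⟨j, hcon⟩⟩
        rw [h1, Finset.prod_filter_mul_prod_filter_not]
        exact hu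
      · refine hW.mul _ _ (hWu u) (hW.prod _ _ fun p hp => hW.pow ?_ _)
        obtain ⟨h2, h3⟩ := Finset.mem_filter.1 hp
        rw [hT, Multiset.mem_toFinset, mem_normalizedFactors_iff' (hF j)] at h2
        rcases h3 with h3 | ⟨i, hi⟩
        · exact hWS p ((hS p).2 ⟨⟨h2.1, h2.2.1, h2.2.2.trans (hFd j)⟩, h3⟩)
        · exact hWv p i hi

end Pool.Agent.Y537.KC
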